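import Mathlib

/-!
Alon-Tarsi numbers of polynomials, edge density, hypergraph polynomials.
-/

set_option autoImplicit false

open MvPolynomial

namespace Pool.Agent.H535Z.AT

/-- The Alon-Tarsi number: the least value of `max α + 1` over the exponent vectors `α` of the
monomials of top degree that occur in `p` with a nonzero coefficient. -/
noncomputable def alonTarsi {V F : Type} [Fintype V] [Field F] (p : MvPolynomial V F) : ℕ :=
  sInf {k : ℕ | ∃ α : V →₀ ℕ, coeff α p ≠ 0 ∧ ∑ v, α v = p.totalDegree ∧
    k = Finset.univ.sup α + 1}

/-- The edge density of the hypergraph with vertex set `V` and edges `e i`, `i : E`: the largest value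
of `|E(X)| / |X|` over the nonempty vertex sets `X`. -/
noncomputable def edgeDensity {V E : Type} [DecidableEq V] [Fintype E] (e : E → Finset V) : ℝ :=
  sSup {x : ℝ | ∃ X : Finset V, X.Nonempty ∧
    x = ((Finset.univ.filter fun i => e i ⊆ X).card : ℝ) / (X.card : ℝ)}

/-- The hypergraph polynomial with coefficients `a`. -/
noncomputable def hyperPoly {V E F : Type} [Fintype E] [Field F] (e : E → Finset V)
    (a : E → V → F) : MvPolynomial V F :=
  ∏ i, ∑ v ∈ e i, C (a i v) * X v

end Pool.Agent.H535Z.AT
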