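import Pool.Agent.H535Z.AT.Defs

set_option autoImplicit false
set_option maxHeartbeats 400000

open MvPolynomial

namespace Pool.Agent.H535Z.AT

lemma span_pow_le {R : Type} [CommRing R] [DecidableEq R] (I : Ideal R) (q : ℕ) (s : Finset R)
    (hs : ∀ t ∈ s, t ^ q ∈ I) : Ideal.span (s : Set R) ^ (s.card * q + 1) ≤ I := by
  induction s using Finset.induction_on with
  | empty => simp
  | insert t s ht ih =>
    rw [Finset.coe_insert, Ideal.span_insert, Finset.card_insert_of_notMem ht,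
      show (s.card + 1) * q + 1 = q + (s.card * q + 1) by ring]
    refine Ideal.sup_pow_add_le_pow_sup_pow.trans (sup_le ?_ (ih fun x hx => hs x (by simp [hx])))
    rw [Ideal.span_singleton_pow, Ideal.span_singleton_le_iff_mem]
    exact hs t (by simp)

lemma lt_alonTarsi {V F : Type} [Fintype V] [Field F] (p : MvPolynomial V F) (hp : p ≠ 0) (q : ℕ)
    (h : p ∈ Ideal.span (Set.range fun v : V => (X v : MvPolynomial V F) ^ q)) :
    q < alonTarsi p := by
  classical
  have hne : {k : ℕ | ∃ α : V →₀ ℕ, coeff α p ≠ 0 ∧ ∑ v, α v = p.totalDegree ∧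
      k = Finset.univ.sup α + 1}.Nonempty := by
    obtain ⟨α, h1, h2⟩ := Finset.exists_mem_eq_sup p.support (support_nonempty.2 hp)
      (fun s => s.sum fun _ e => e)
    refine ⟨_, α, mem_support_iff.1 h1, ?_, rfl⟩
    rw [totalDegree, h2, Finsupp.sum_fintype _ _ (fun _ => rfl)]
  obtain ⟨α, h1, -, h3⟩ := Nat.sInf_mem hne
  have e : (Set.range fun v : V => (X v : MvPolynomial V F) ^ q) =
      (fun s => monomial s (1 : F)) '' Set.range fun v : V => Finsupp.single v q := by
    rw [← Set.range_comp]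
    congr 1
    funext v
    exact X_pow_eq_monomial
  rw [e, mem_ideal_span_monomial_image] at h
  obtain ⟨_, ⟨v, rfl⟩, hv⟩ := h α (mem_support_iff.2 h1)
  have h4 : q ≤ α v := by simpa using hv v
  have h5 : α v ≤ Finset.univ.sup α := Finset.le_sup (f := α) (Finset.mem_univ v)
  unfold alonTarsi
  omega

lemma lin_ne_zero {V F : Type} [Field F] (s : Finset V) (a : V → F) (v : V) (hv : v ∈ s)
    (ha : a v ≠ 0) : (∑ w ∈ s, C (a w) * X w : MvPolynomial V F) ≠ 0 := by
  classical
  intro h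
  have := congrArg (eval (Pi.single v 1)) h
  rw [map_sum, Finset.sum_eq_single v] at this
  · simp [ha] at this
  · intro w _ hw
    simp [hw]
  · intro h'
    exact absurd hv h'

theorem main (F : Type) [Field F] (p : ℕ) [CharP F p] (hp : p ≠ 0) (c : F) (c0 : c ≠ 0)
    (c1 : c ≠ 1) (K : ℕ) :
    ∃ (r N : ℕ) (e : Finset (Fin r) → Finset (Fin N ⊕ Fin r))
      (a : Finset (Fin r) → Fin N ⊕ Fin r → F),
      Function.Injective e ∧ (∀ i, 2 ≤ (e i).card) ∧ (∀ i, ∀ v ∈ e i, a i v ≠ 0) ∧
      (∀ i, ∃ u ∈ e i, ∃ v ∈ e i, a i u ≠ a i v) ∧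
      edgeDensity e ≤ 1 ∧ K < alonTarsi (hyperPoly e a) := by
  classical
  haveI : Fact p.Prime := ⟨(CharP.char_is_prime_or_zero F p).resolve_right hp⟩
  set q := p ^ K with hq
  have hKq : K < q := Nat.lt_pow_self (Fact.out : p.Prime).one_lt
  set r := 2 * q + 1 with hr
  have hr2 : (r + 1) * q + 1 ≤ 2 ^ r := by
    have h1 : q + 1 ≤ 2 ^ q := Nat.lt_two_pow_self
    have h2 : 2 ^ r = 2 * (2 ^ q * 2 ^ q) := by rw [hr, pow_succ, two_mul, pow_add]; ring
    have h3 : (q + 1) * (q + 1) ≤ 2 ^ q * 2 ^ q := Nat.mul_le_mul h1 h1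
    rw [h2, hr]
    nlinarith
  obtain ⟨M, hM⟩ : ∃ M, 2 ^ r = M + 2 := by
    refine ⟨2 ^ r - 2, ?_⟩
    have : 2 ≤ 2 ^ r := by
      calc 2 = 2 ^ 1 := by norm_num
        _ ≤ 2 ^ r := Nat.pow_le_pow_right (by norm_num) (by omega)
    omega
  let b : Fin (M + 2) ⊕ Fin r → F := Sum.elim (fun i => if i = 0 then c else 1) fun _ => 1
  have hb : ∀ v, b v ≠ 0 := by
    rintro (i | j)
    · by_cases h : i = 0 <;> simp [b, h, c0]
    · simp [b]
  refine ⟨r, M + 2, fun S => Finset.univ.disjSum S, fun _ => b, ?_, ?_, fun _ v _ => hb v, ?_, ?_,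
    hKq.trans (lt_alonTarsi _ ?_ q ?_)⟩
  · intro S T h
    ext j
    have := congrArg (fun X => Sum.inr j ∈ X) h
    simpa using this
  · intro S
    simp only [Finset.card_disjSum, Finset.card_univ, Fintype.card_fin]
    omega
  · intro S
    exact ⟨Sum.inl 0, by simp, Sum.inl 1, by simp, by simp [b, c1]⟩
  · refine Real.sSup_le ?_ zero_le_one
    rintro _ ⟨X, hX, rfl⟩
    have hpos : (0 : ℝ) < X.card := by exact_mod_cast hX.card_pos
    rw [div_le_one hpos, Nat.cast_le]
    rcases (Finset.univ.filter fun S : Finset (Fin r) =>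
      (Finset.univ : Finset (Fin (M + 2))).disjSum S ⊆ X).eq_empty_or_nonempty with h | ⟨S, hS⟩
    · rw [h]; simp
    · have h1 := Finset.card_le_card (Finset.mem_filter.1 hS).2
      simp only [Finset.card_disjSum, Finset.card_univ, Fintype.card_fin] at h1
      have h2 := Finset.card_le_univ (Finset.univ.filter fun S : Finset (Fin r) =>
        (Finset.univ : Finset (Fin (M + 2))).disjSum S ⊆ X)
      rw [Fintype.card_finset, Fintype.card_fin] at h2
      exact h2.trans (by omega)
  · exact Finset.prod_ne_zero_iff.2 fun S _ => lin_ne_zero _ _ (Sum.inl 0) (by simp) (hb _)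
  · set I := Ideal.span (Set.range fun v : Fin (M + 2) ⊕ Fin r =>
      (X v : MvPolynomial (Fin (M + 2) ⊕ Fin r) F) ^ q) with hI
    let u : MvPolynomial (Fin (M + 2) ⊕ Fin r) F := ∑ i, C (b (Sum.inl i)) * X (Sum.inl i)
    let s : Finset (MvPolynomial (Fin (M + 2) ⊕ Fin r) F) :=
      insert u (Finset.univ.image fun j => X (Sum.inr j))
    have hs : ∀ t ∈ s, t ^ q ∈ I := by
      intro t ht
      rcases Finset.mem_insert.1 ht with rfl | ht
      · rw [hq, sum_pow_char_pow]
        refine Ideal.sum_mem _ fun i _ => ?_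
        rw [mul_pow]
        exact Ideal.mul_mem_left _ _ (Ideal.subset_span ⟨_, rfl⟩)
      · obtain ⟨j, -, rfl⟩ := Finset.mem_image.1 ht
        exact Ideal.subset_span ⟨_, rfl⟩
    have hc : s.card ≤ r + 1 :=
      (Finset.card_insert_le _ _).trans (Nat.succ_le_succ (Finset.card_image_le.trans (by simp)))
    have h1 := span_pow_le I q s hs
    have h2 : Ideal.span (s : Set _) ^ 2 ^ r ≤ I :=
      (Ideal.pow_le_pow_right ((Nat.succ_le_succ (Nat.mul_le_mul_right q hc)).trans hr2)).trans h1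
    apply h2
    have h3 : Ideal.span (s : Set (MvPolynomial (Fin (M + 2) ⊕ Fin r) F)) ^ 2 ^ r =
        ∏ _S : Finset (Fin r), Ideal.span (s : Set (MvPolynomial (Fin (M + 2) ⊕ Fin r) F)) := by
      rw [Finset.prod_const, Finset.card_univ, Fintype.card_finset, Fintype.card_fin]
    rw [h3]
    refine Ideal.prod_mem_prod fun S _ => ?_
    rw [Finset.sum_disjSum]
    refine Ideal.add_mem _ (Ideal.subset_span (by simp [s, u])) (Ideal.sum_mem _ fun j _ => ?_)
    exact Ideal.mul_mem_left _ _ (Ideal.subset_span (by simp [s]))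

end Pool.Agent.H535Z.AT
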